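import Pool.Agent.H76.HB.CL

/-! DEN: isolated tuples are dense. -/

set_option autoImplicit false

open Set Pool.Agent.TK Pool.Agent.ST

namespace Pool.Agent.HB

variable {C : Type}

lemma bf_lim_of {M N : St C} {U U' : Set ℕ} {r : Rk} {p : List (ℕ × ℕ)}
    (h : ∀ m, bf M N U U' (Rk.sucN m r) p) : bf M N U U' (Rk.lim r) p :=
  fun n => h (n + 1) 0

lemma not_countable_cantor {α : Type*} {T : Set α} (hT : T.Countable) (τ : (ℕ → Bool) → α)
    (hτ : ∀ f, τ f ∈ T) (hinj : Function.Injective τ) : False := by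
  have h1 : (range τ).Countable := hT.mono (range_subset_iff.2 hτ)
  obtain ⟨e, he⟩ := h1.exists_eq_range ⟨_, mem_range_self (fun _ => false)⟩
  have h2 : ∀ f, ∃ n, e n = τ f := fun f => by
    have : τ f ∈ range e := he ▸ mem_range_self f
    exact this
  choose k hk using h2
  have hkinj : Function.Injective k := fun f g h => hinj (by rw [← hk f, ← hk g, h])
  -- Cantor
  have h3 := Function.cantor_injective (α := ℕ) (fun s : Set ℕ => k (by
    classical exact fun n => decide (n ∈ s)))
  apply h3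
  intro s t h
  have h4 := hkinj h
  ext n
  have h5 := congrFun h4 n
  simpa using h5

theorem pf_DEN {C : Type} (hCL : CL C) : DEN C := by
  classical
  intro X b r hcl htc hbr M hM s x hnd n
  by_contra hcon
  push Not at hcon
  -- nodes
  let Nd := {t : St C × List ℕ × List ℕ × ℕ // t.1 ∈ X ∧ EB (Rk.lim r) M s t.1 t.2.1 ∧
    EB (Rk.sucN n r) M (x ++ s) t.1 (t.2.2.1 ++ t.2.1) ∧ n ≤ t.2.2.2}
  let st : Nd → St C := fun t => t.1.1
  let z : Nd → List ℕ := fun t => t.1.2.2.1 ++ t.1.2.1
  let rk : Nd → ℕ := fun t => t.1.2.2.2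
  have hch : ∀ t : Nd, ∃ c : Bool → Nd, rk (c false) = rk (c true) ∧
      (∀ β, rk t + 2 ≤ rk (c β)) ∧
      (∀ β, EB (Rk.sucN (rk t) r) (st t) (z t) (st (c β)) (z (c β))) ∧
      ¬ EB (Rk.sucN (rk (c true)) r) (st (c false)) (z (c false)) (st (c true)) (z (c true)) := by
    rintro ⟨⟨N, s', y, m⟩, h1, h2, h3, h4⟩
    simp only at h1 h2 h3 h4
    have h5 := hcon N h1 s' y h2 h3
    unfold Isl at h5
    push Not at h5
    obtain ⟨N', hN', s'', y'', h6, h7, h8⟩ := h5 m
    obtain ⟨m1, hm1⟩ : ∃ m1, ¬ EB (Rk.sucN m1 r) N (y ++ s') N' (y'' ++ s'') := by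
      by_contra hc
      push Not at hc
      exact h8 ⟨(hc 0).1, bf_lim_of fun m => (hc m).2⟩
    have hm' : ¬ EB (Rk.sucN (max (m + 2) m1) r) N (y ++ s') N' (y'' ++ s'') :=
      fun h => hm1 (h.mono (RLe.sucN_le (le_max_right _ _) r))
    refine ⟨fun β => if β then
        ⟨(N', s'', y'', max (m + 2) m1), hN', h2.trans h6,
          h3.trans (h7.mono (RLe.sucN_le h4 r)), by simp only; omega⟩
      else ⟨(N, s', y, max (m + 2) m1), h1, h2, h3, by simp only; omega⟩, ?_, ?_, ?_, ?_⟩
    · rfl
    · rintro (_ | _)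
      · show m + 2 ≤ max (m + 2) m1
        omega
      · show m + 2 ≤ max (m + 2) m1
        omega
    · rintro (_ | _)
      · exact FB.refl _ _ _ _
      · exact h7
    · exact hm'
  choose ch c1 c2 c3 c4 using hch
  let root : Nd := ⟨(M, s, x, n), hM, FB.refl _ _ _ _, FB.refl _ _ _ _, le_rfl⟩
  let nd : (ℕ → Bool) → ℕ → Nd := fun f i => Nat.rec root (fun i t => ch t (f i)) i
  have nd0 : ∀ f, nd f 0 = root := fun _ => rfl
  have nds : ∀ f i, nd f (i + 1) = ch (nd f i) (f i) := fun _ _ => rfl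
  have hlim : ∀ f : ℕ → Bool, ∃ (N' : St C) (z' : List ℕ), ∀ i,
      EB (Rk.sucN (rk (nd f i)) r) N' z' (st (nd f i)) (z (nd f i)) := by
    intro f
    refine hCL r (fun i => st (nd f i)) (fun i => z (nd f i)) (fun i => rk (nd f i)) hnd
      (fun i => ?_) (fun i => ?_)
    · show rk (nd f i) + 2 ≤ rk (nd f (i + 1))
      rw [nds]
      exact c2 _ _
    · show EB (Rk.sucN (rk (nd f i)) r) (st (nd f i)) (z (nd f i)) (st (nd f (i + 1)))
        (z (nd f (i + 1)))
      rw [nds]
      exact c3 _ _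
  choose L zL hL using hlim
  have hLX : ∀ f, L f ∈ X := by
    intro f
    have h := (hL f 0).symm
    refine hcl M hM (L f) (bf_mono ((hbr.trans (RLe.sucN _ r)) _ _ _ _ _ h.2) ?_)
    intro w hw
    exact absurd hw List.not_mem_nil
  -- the types of the limits
  obtain ⟨T, hT, -, hT2⟩ := htc (Rk.lim r)
  have hτ : ∀ f, ∃ t ∈ T, EB (Rk.lim r) (L f) (zL f) t.1 t.2 := by
    intro f
    obtain ⟨t, ht, h1, h2⟩ := hT2 (L f) (hLX f) (zL f)
    exact ⟨t, ht, h1.symm, h2⟩
  choose τ hτT hτE using hτ
  refine not_countable_cantor hT τ hτT ?_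
  -- two branches
  have key : ∀ f g : ℕ → Bool, ∀ i, (∀ j, j < i → f j = g j) → f i = false → g i = true →
      ¬ EB (Rk.lim r) (L f) (zL f) (L g) (zL g) := by
    intro f g i hj hf hg hE
    have hnd' : ∀ j, j ≤ i → nd f j = nd g j := by
      intro j
      induction j with
      | zero => intro _; rfl
      | succ j ih =>
        intro hji
        rw [nds, nds, ih (by omega), hj j (by omega)]
    have e1 : nd f (i + 1) = ch (nd g i) false := by rw [nds, hnd' i le_rfl, hf]
    have e2 : nd g (i + 1) = ch (nd g i) true := by rw [nds, hg]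
    have h1 := hL f (i + 1)
    have h2 := hL g (i + 1)
    rw [e1, c1] at h1
    rw [e2] at h2
    exact c4 (nd g i) ((h1.symm.trans (hE.mono (RLe.lim' _ r))).trans h2)
  intro f g hfg
  by_contra hne
  have hE : EB (Rk.lim r) (L f) (zL f) (L g) (zL g) := by
    have h1 := hτE f
    rw [hfg] at h1
    exact h1.trans (hτE g).symm
  obtain ⟨i0, hi0⟩ : ∃ i, f i ≠ g i := by
    by_contra h
    push Not at h
    exact hne (funext h)
  have hex : ∃ i, f i ≠ g i := ⟨i0, hi0⟩
  set i := Nat.find hex with hi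
  have h1 : f i ≠ g i := Nat.find_spec hex
  have h2 : ∀ j, j < i → f j = g j := fun j hj => by
    have := Nat.find_min hex hj
    push Not at this
    exact this
  cases hf : f i with
  | false =>
    have hg : g i = true := by
      cases hg : g i with
      | false => exact absurd (hf.trans hg.symm) h1
      | true => rfl
    exact key f g i h2 hf hg hE
  | true =>
    have hg : g i = false := by
      cases hg : g i with
      | true => exact absurd (hf.trans hg.symm) h1
      | false => rfl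
    exact key g f i (fun j hj => (h2 j hj).symm) hg hf hE.symm

end Pool.Agent.HB
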