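import Pool.Agent.H76.HB.Stmt
import Pool.Agent.H34.TK.CTR

/-! FL1: flaps which avoid the atomic submodel are small. -/

set_option autoImplicit false

open Set Pool.Agent.TK Pool.Agent.ST

namespace Pool.Agent.HB

theorem pf_FL1b {C : Type} {c0 : C} (hREL : REL C) (hCTR : CTR C) : FL1 C c0 := by
  classical
  intro X b r M s a A hM hr hA hfin S hSA y hyS hdisj
  by_contra hns
  -- points of `A` in the big components
  let pt : Set ℕ → ℕ := fun D => if h : (D ∩ A).Nonempty then h.choose else 0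
  have hpt : ∀ D : Set ℕ, (D ∩ A).Nonempty → pt D ∈ D ∩ A := by
    intro D h
    have e : pt D = h.choose := dif_pos h
    rw [e]
    exact h.choose_spec
  let BB : Set (Set ℕ) := {D | IsCp M (ms S) D ∧ ¬ small c0 b M S D}
  have hBB : (pt '' {D | D ∈ BB ∧ (D ∩ A).Nonempty}).Finite :=
    ((hfin S).subset (fun D hD => hD.1)).image pt
  obtain ⟨e, he, -, -⟩ := exists_list hBB
  have heA : ∀ z ∈ e, z ∈ A := by
    intro z hz
    have : z ∈ ms e := hz
    rw [he] at this
    obtain ⟨D, hD, rfl⟩ := this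
    exact (hpt D hD.2).2
  obtain ⟨y', hy'A, hE⟩ := hA.tv (S ++ e) (by
    intro z hz
    rcases List.mem_append.1 hz with h | h
    · exact hSA h
    · exact heA z h) y 0
  have hE2 : bf M M univ univ (W b) ((y, y') :: (S ++ e).zip (S ++ e)) := by
    have := hr _ _ _ _ _ hE.2
    exact this
  have hin : ∀ z ∈ S.zip S, z ∈ (y, y') :: (S ++ e).zip (S ++ e) := by
    intro z hz
    rw [← dg_eq_zip] at hz ⊢
    refine List.mem_cons_of_mem _ (mem_dg.2 ⟨(mem_dg.1 hz).1, ?_⟩)
    exact List.mem_append_left _ (mem_dg.1 hz).2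
  have hyy : (y, y') ∈ (y, y') :: (S ++ e).zip (S ++ e) := List.mem_cons_self
  have hy'S : y' ∉ S := ctr_not_mem (bf_PI hE2) rfl hin hyy hyS
  have h1 := hREL M M univ univ b _ S S y y' hE2 rfl hin hyy hyS (subset_univ _) (subset_univ _)
  have hFB : FB b M S (cp M (ms S) y) M S (cp M (ms S) y') := ⟨rfl, bf_mono h1 hin⟩
  have hD' : cp M (ms S) y' ∈ BB := ⟨isCp_cp hy'S, fun h => hns (h.fb hFB.symm)⟩
  have hne : (cp M (ms S) y' ∩ A).Nonempty := ⟨y', self_mem_cp hy'S, hy'A⟩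
  have hd := hpt _ hne
  have hde : pt (cp M (ms S) y') ∈ e := by
    have : pt (cp M (ms S) y') ∈ ms e := by
      rw [he]
      exact ⟨_, ⟨hD', hne⟩, rfl⟩
    exact this
  have hE3 := bf_symm (RLe.om_W b _ _ _ _ _ hE2)
  have h2 := hCTR M M univ univ _ S S y' y (pt (cp M (ms S) y')) (pt (cp M (ms S) y')) hE3 rfl
    (by
      intro z hz
      rw [← swap_zip] at hz
      obtain ⟨w, hw, rfl⟩ := List.mem_map.1 hz
      exact List.mem_map.2 ⟨w, hin w hw, rfl⟩)
    (List.mem_map.2 ⟨(y, y'), hyy, rfl⟩)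
    (List.mem_map.2 ⟨(pt (cp M (ms S) y'), pt (cp M (ms S) y')), List.mem_cons_of_mem _ (by
      rw [← dg_eq_zip]
      exact mem_dg.2 ⟨rfl, List.mem_append_right _ hde⟩), rfl⟩)
    (mem_univ _) (mem_univ _)
  simp only [compl_univ, empty_union] at h2
  exact Set.disjoint_left.1 hdisj (h2 hd.1) hd.2

end Pool.Agent.HB
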