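import Pool.Agent.H76.HB.Stmt
import Pool.Agent.H34.TK.CTR

/-! HEND: the end of the hub system. -/

set_option autoImplicit false

open Set Pool.Agent.TK Pool.Agent.ST

namespace Pool.Agent.HB

variable {C : Type} {c0 : C}

lemma wlk_conn_aux {M : St C} {F : Set ℕ} {k : ℕ} {u : ℕ → ℕ}
    (h : ∀ t, t < k → u t ∉ F ∧ M.1 (u t) (u (t + 1)) = true) :
    ∀ t, t < k → Conn M F (u 0) (u t)
  | 0, ht => Conn.refl (h 0 ht).1
  | t + 1, ht => (wlk_conn_aux h t (by omega)).step (h t (by omega)).2 (h (t + 1) ht).1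

lemma Wlk.conn {M : St C} {F : Set ℕ} {v c k : ℕ} (h : Wlk M F v c k) (hv : v ∉ F)
    (hc : c ∉ F) : Conn M F v c := by
  obtain ⟨u, rfl, rfl, h⟩ := h
  rcases Nat.eq_zero_or_pos k with rfl | hk
  · exact Conn.refl hv
  · obtain ⟨k', rfl⟩ : ∃ k', k = k' + 1 := ⟨k - 1, by omega⟩
    exact (wlk_conn_aux h k' (by omega)).step (h k' (by omega)).2 hc

lemma Wlk.last {M : St C} {F : Set ℕ} {v c k : ℕ} (h : Wlk M F v c k) (hv : v ∉ F)
    (hc : c ∈ F) : ∃ z, Conn M F v z ∧ M.1 z c = true := by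
  obtain ⟨u, rfl, rfl, h⟩ := h
  rcases Nat.eq_zero_or_pos k with rfl | hk
  · exact absurd hc hv
  · obtain ⟨k', rfl⟩ : ∃ k', k = k' + 1 := ⟨k - 1, by omega⟩
    exact ⟨u k', wlk_conn_aux h k' (by omega), (h k' (by omega)).2⟩

theorem pf_HEND {C : Type} {c0 : C} (hREL : REL C) (hTVM : TVM C) (hMMK : MMK C c0) :
    HEND C c0 := by
  classical
  intro X b r M s a A hM hb hr hA y hy hbig β k hH hβ
  -- vertices outside finite sets
  have hι : ∀ F : Set ℕ, F.Finite → ∃ i, β i ∉ F := by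
    intro F hF
    by_contra h
    push Not at h
    exact (infinite_range_of_injective hH.1) (hF.subset (range_subset_iff.2 h))
  -- all `β i` outside `F` are in the same component
  have hcomp : ∀ F : Set ℕ, F.Finite → ∀ i j, β i ∉ F → β j ∉ F →
      Conn M F (β i) (β j) := by
    intro F hF i j hi hj
    obtain ⟨v, hv, hw⟩ := hH.2 (max i j) F hF
    have h1 := (hw i (le_max_left _ _)).conn hv hi
    have h2 := (hw j (le_max_right _ _)).conn hv hj
    exact (Conn.symm hM h1).trans h2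
  let w : Set ℕ → Set ℕ := fun F => if h : F.Finite then cp M F (β (hι F h).choose) else ∅
  have hw : ∀ F : Set ℕ, F.Finite → ∀ i, β i ∉ F → w F = cp M F (β i) := by
    intro F hF i hi
    have e : w F = cp M F (β (hι F hF).choose) := dif_pos hF
    rw [e]
    exact cp_eq hM (hcomp F hF i _ hi (hι F hF).choose_spec)
  have hw0 : ∀ F : Set ℕ, ¬ F.Finite → w F = ∅ := fun F hF => dif_neg hF
  have hdir : IsDir M w := by
    refine ⟨fun F hF => ?_, fun F B hB hFB => ?_⟩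
    · obtain ⟨i, hi⟩ := hι F hF
      rw [hw F hF i hi]
      exact isCp_cp hi
    · obtain ⟨i, hi⟩ := hι B hB
      rw [hw B hB i hi, hw F (hB.subset hFB) i (fun h => hi (hFB h))]
      intro x hx
      exact Conn.mono hFB hx
  -- the vertices `v` of the hub system
  have hv : ∀ n, ∀ F : Set ℕ, F.Finite → ∃ v ∈ w F, ∀ i, i ≤ n → Wlk M F v (β i) (k i) := by
    intro n F hF
    obtain ⟨j, hj⟩ := hι F hF
    obtain ⟨v, hv, hwk⟩ := hH.2 (max n j) F hF
    refine ⟨v, ?_, fun i hi => hwk i (hi.trans (le_max_left _ _))⟩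
    rw [hw F hF j hj]
    exact Conn.symm hM ((hwk j (le_max_right _ _)).conn hv hj)
  have hdm : ∀ i, β i ∈ Dm M w := by
    intro i F hF hiF
    obtain ⟨v, hvw, hwk⟩ := hv i F hF
    have hvF : v ∉ F := fun h => Set.disjoint_left.1 (hdir.1 F hF).disj hvw h
    obtain ⟨z, hz, hz2⟩ := (hwk i le_rfl).last hvF hiF
    refine ⟨fun h => Set.disjoint_left.1 (hdir.1 F hF).disj h hiF, z, ?_, by rw [hM.1]; exact hz2⟩
    rw [(hdir.1 F hF).eq_cp hM hvw]
    exact hz
  -- sets inside `A`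
  have hUA : IsCp M A (cp M A y) := isCp_cp hy
  have hS : ∀ S : List ℕ, ms S ⊆ A → w (ms S) = cp M (ms S) y := by
    intro S hS
    obtain ⟨i, hi⟩ := hι (ms S) (ms_finite S)
    rw [hw _ (ms_finite S) i hi]
    obtain ⟨-, u, hu, hE⟩ := hβ i
    have h1 : Conn M (ms S) y u := Conn.mono hS hu
    exact cp_eq hM (h1.step (by rw [hM.1]; exact hE) hi)
  refine ⟨w, ⟨hdir, (infinite_range_of_injective hH.1).mono (range_subset_iff.2 hdm), ?_,
    hw0⟩, ⟨β, k, hH.1, hv⟩, hS⟩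
  -- the sides are big
  rintro B hB ⟨a', hcp, hsm⟩
  obtain ⟨l1, hl1, -, -⟩ := exists_list (hB.subset (sdiff_subset : B \ A ⊆ B))
  obtain ⟨l2, hl2, -, -⟩ := exists_list (hB.subset (inter_subset_left : B ∩ A ⊆ B))
  have hB0 : ms (l1 ++ l2) = B := by rw [ms_append, hl1, hl2, sdiff_union_inter]
  have hsm1 : small c0 b M (l1 ++ l2) (w B) :=
    hMMK b hb M a' (l1 ++ l2) (w B) hM hcp (by rw [hB0]; exact hdir.1 B hB) hsm
  obtain ⟨i, hi⟩ := hι B hB
  have hiA : β i ∈ A := hUA.nb hM (hβ i)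
  obtain ⟨t', ht', htA, hE⟩ := hTVM X r M s a A hA (β i :: l2) (by
    intro z hz
    rcases List.mem_cons.1 hz with rfl | hz
    · exact hiA
    · have : z ∈ ms l2 := hz
      rw [hl2] at this
      exact this.2) l1 0
  have hE2 : bf M M univ univ (W b) ((l1 ++ β i :: l2).zip (t' ++ β i :: l2)) :=
    hr _ _ _ _ _ hE.2
  have ez : (l1 ++ β i :: l2).zip (t' ++ β i :: l2) =
      l1.zip t' ++ (β i, β i) :: l2.zip l2 := by
    rw [List.zip_append ht'.symm, List.zip_cons_cons]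
  have ez2 : (l1 ++ l2).zip (t' ++ l2) = l1.zip t' ++ l2.zip l2 := List.zip_append ht'.symm
  have hin : ∀ z ∈ (l1 ++ l2).zip (t' ++ l2), z ∈ (l1 ++ β i :: l2).zip (t' ++ β i :: l2) := by
    intro z hz
    rw [ez2] at hz
    rw [ez]
    simp only [List.mem_append, List.mem_cons] at hz ⊢
    tauto
  have hvv : (β i, β i) ∈ (l1 ++ β i :: l2).zip (t' ++ β i :: l2) := by
    rw [ez]
    simp
  have hlen : (l1 ++ l2).length = (t' ++ l2).length := by
    rw [List.length_append, List.length_append, ht']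
  have hiB0 : β i ∉ l1 ++ l2 := by
    intro h
    have : β i ∈ ms (l1 ++ l2) := h
    rw [hB0] at this
    exact hi this
  have hiB1 : β i ∉ t' ++ l2 := ctr_not_mem (bf_PI hE2) hlen hin hvv hiB0
  have hREL' := hREL M M univ univ b _ (l1 ++ l2) (t' ++ l2) (β i) (β i) hE2 hlen hin hvv hiB0
    (subset_univ _) (subset_univ _)
  have hFB : FB b M (l1 ++ l2) (cp M (ms (l1 ++ l2)) (β i)) M (t' ++ l2)
      (cp M (ms (t' ++ l2)) (β i)) := ⟨hlen, bf_mono hREL' hin⟩
  have hsA : ms (t' ++ l2) ⊆ A := by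
    rw [ms_append, hl2]
    rintro z (hz | hz)
    · exact htA z hz
    · exact hz.2
  apply hbig (t' ++ l2) hsA
  have e1 : cp M (ms (l1 ++ l2)) (β i) = w B := by
    rw [hB0, hw B hB i hi]
  have e2 : cp M (ms (t' ++ l2)) (β i) = cp M (ms (t' ++ l2)) y := by
    rw [← hS _ hsA, hw _ (ms_finite _) i hiB1]
  rw [← e2]
  rw [e1] at hFB
  exact hsm1.fb hFB

end Pool.Agent.HB
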