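import Pool.Agent.H76.HB.Stmt
import Pool.Agent.H76.TK.FINB

/-! HFL: all but countably many flaps are sides of wild hub directions. -/

set_option autoImplicit false

open Set Pool.Agent.TK Pool.Agent.ST

namespace Pool.Agent.HB

variable {C : Type} {c0 : C}

/-- the flap is not a side of a wild hub direction -/
def Bad (c0 : C) (b : Rk) (M : St C) (a : List ℕ) (v : ℕ) : Prop :=
  ¬ ∃ w, Wild c0 b M w ∧ HubE M w ∧ w (ms a) = cp M (ms a) v

lemma ms_dedup (a : List ℕ) : ms a.dedup = ms a := by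
  ext z
  exact List.mem_dedup

lemma hfl_claim1 (hFL1 : FL1 C c0) (hFL2 : FL2 C c0) (hFL3 : FL3 C) (hHUBS : HUBS C c0)
    (hHEND : HEND C c0) {X : Set (St C)} {b d r : Rk} (hval : ∀ M ∈ X, Valid c0 M)
    (homb : RLe C om b) (hFB : ∀ M ∈ X, ∀ S : List ℕ,
      {D : Set ℕ | IsCp M (ms S) D ∧ ¬ small c0 b M S D}.Finite)
    (hpsr : PSR c0 b d X) (hWd : RLe C (W d) r) (hWb : RLe C (W b) r)
    {M : St C} (hM : M ∈ X) {a : List ℕ} {v : ℕ} (hbad : Bad c0 b M a v)
    {a1 : ℕ → List ℕ} {A : Set ℕ} (hA : ATS X r M (v :: a.dedup) a1 A) :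
    FI M (v :: a.dedup) (cp M (ms a) v ∩ A) M (v :: a.dedup) (cp M (ms a) v) := by
  classical
  have hMv := hval M hM
  have hs : ∀ z ∈ v :: a.dedup, z ∈ A := fun z hz =>
    (hA.mem z).2 ⟨0, List.mem_append_right _ hz⟩
  have haA : ms a ⊆ A := fun z hz => hs z (List.mem_cons_of_mem _ (List.mem_dedup.2 hz))
  apply hFL3 M (v :: a.dedup) A (cp M (ms a) v) hs
  · intro g hg hfix z
    have h1 := cp_transport g hg.1 (ms a) v
    have h2 : g '' ms a = ms a := by
      ext x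
      constructor
      · rintro ⟨u, hu, rfl⟩
        rw [hfix u (List.mem_cons_of_mem _ (List.mem_dedup.2 hu))]
        exact hu
      · intro hx
        exact ⟨x, hx, hfix x (List.mem_cons_of_mem _ (List.mem_dedup.2 hx))⟩
    rw [h2, hfix v List.mem_cons_self] at h1
    constructor
    · intro hz
      rw [← h1]
      exact mem_image_of_mem g hz
    · intro hz
      rw [← h1] at hz
      exact (g.injective.mem_set_image).1 hz
  · intro y hyD hyA x hx
    by_cases h : ∃ S : List ℕ, ms S ⊆ A ∧ small c0 b M S (cp M (ms S) y)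
    · obtain ⟨S, hSA, hS⟩ := h
      exact hFL2 X b d r M _ a1 A hval hM hpsr hWd hA y hyA S hSA hS x hx
    · exfalso
      push Not at h
      have hU : IsCp M A (cp M A y) := isCp_cp hyA
      by_cases hfin : (Nb M (cp M A y)).Finite
      · obtain ⟨S, hS, -, -⟩ := exists_list hfin
        have hSA : ms S ⊆ A := by rw [hS]; exact hU.nb hMv
        have hU' : IsCp M (ms S) (cp M A y) :=
          hU.change hMv hS.ge (hU.disj.mono_right hSA)
        have e : cp M A y = cp M (ms S) y := hU'.eq_cp hMv (self_mem_cp hyA)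
        refine h S hSA (hFL1 X b r M _ a1 A hMv hWb hA (hFB M hM) S hSA y
          (fun h' => hyA (hSA h')) ?_)
        rw [← e]
        exact hU.disj
      · obtain ⟨β, k, hH, hβ⟩ := hHUBS X r M _ a1 A hMv hA y hyA hfin
        obtain ⟨w, hw1, hw2, hw3⟩ := hHEND X b r M _ a1 A hMv homb hWb hA y hyA h β k hH hβ
        refine hbad ⟨w, hw1, hw2, ?_⟩
        rw [hw3 a haA]
        exact cp_eq hMv hyD

lemma hfl_conn (hCTR : CTR C) {r : Rk} (hom : RLe C om r) {M M' : St C} {a a' : List ℕ}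
    {v v' c d : ℕ} {p : List (ℕ × ℕ)} (hE : bf M M' univ univ r p) (hl : a.length = a'.length)
    (hz : ∀ z ∈ a.zip a', z ∈ p) (hv : (v, v') ∈ p) (hc : (c, d) ∈ p)
    (h : Conn M (ms a) v c) : Conn M' (ms a') v' d := by
  have := hCTR M M' univ univ p a a' v v' c d (hom _ _ _ _ _ hE) hl hz hv hc (mem_univ _)
    (mem_univ _)
  simp only [compl_univ, empty_union] at this
  exact this h

theorem pf_HFL {C : Type} {c0 : C} [MeasurableSpace C] (hAT : AT C) (hUN : UN C)
    (hPSX : PSX C c0) (hFL1 : FL1 C c0) (hFL2 : FL2 C c0) (hFL3 : FL3 C) (hHUBS : HUBS C c0)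
    (hHEND : HEND C c0) (hFINB : FINB C c0) (hCTR : CTR C) (hDDP : DDP C) : HFL C c0 := by
  classical
  intro b X hyp
  obtain ⟨d, hbd, hpsr⟩ := hPSX X hyp.val hyp.tc b
  have homb : RLe C om b := ((RLe.lim om).trans (RLe.lim _)).trans hyp.base
  obtain ⟨r, hWd, hWb⟩ : ∃ r : Rk, RLe C (W d) r ∧ RLe C (W b) r :=
    ⟨Sh (W d) (W b), RLe.sh_left _ _, RLe.sh_right _ _⟩
  have hbr : RLe C b r := (RLe.W_right b).trans hWb
  have homr : RLe C om r := (RLe.om_W b).trans hWb
  have homl : RLe C om (Rk.lim r) := homr.trans (RLe.lim r)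
  have claim1 := fun (M : St C) (hM : M ∈ X) (a : List ℕ) (v : ℕ) (_ : v ∉ a)
    (hbad : Bad c0 b M a v) (a1 : ℕ → List ℕ) (A : Set ℕ)
    (hA : ATS X r M (v :: a.dedup) a1 A) =>
    hfl_claim1 hFL1 hFL2 hFL3 hHUBS hHEND hyp.val homb (fun M hM => hFINB X b hyp M hM) hpsr
      hWd hWb hM hbad hA
  have claim2 : ∀ (M : St C), M ∈ X → ∀ (M' : St C), M' ∈ X → ∀ (a a' : List ℕ) (v v' : ℕ),
      v ∉ a → v' ∉ a' → Bad c0 b M a v → Bad c0 b M' a' v' →
      EB (Rk.lim r) M (v :: a) M' (v' :: a') →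
      FI M a (cp M (ms a) v) M' a' (cp M' (ms a') v') := by
    intro M hM M' hM' a a' v v' hv hv' hbad hbad' hE
    have hl : a.length = a'.length := by simpa using hE.1
    have hPI : PI M M' (a.zip a') := (bf_PI hE.2).mono (by
      intro z hz
      exact List.mem_cons_of_mem _ hz)
    obtain ⟨hl2, hzz⟩ := hDDP M M' a a' hl hPI
    have hEs : EB (Rk.lim r) M (v :: a.dedup) M' (v' :: a'.dedup) := by
      refine ⟨by simpa using hl2, bf_mono hE.2 ?_⟩
      intro z hz
      rw [List.zip_cons_cons] at hz ⊢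
      rcases List.mem_cons.1 hz with rfl | hz
      · exact List.mem_cons_self
      · exact List.mem_cons_of_mem _ ((hzz z).1 hz)
    have nd : ∀ (a : List ℕ) (v : ℕ), v ∉ a → (v :: a.dedup).Nodup := fun a v hv =>
      List.nodup_cons.2 ⟨fun h => hv (List.mem_dedup.1 h), List.nodup_dedup a⟩
    obtain ⟨a1, A, hA⟩ := hAT X b r hyp.cl hyp.tc hbr M hM (v :: a.dedup) (nd a v hv)
    obtain ⟨a1', A', hA'⟩ := hAT X b r hyp.cl hyp.tc hbr M' hM' (v' :: a'.dedup) (nd a' v' hv')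
    have h1 := claim1 M hM a v hv hbad a1 A hA
    have h2 := claim1 M' hM' a' v' hv' hbad' a1' A' hA'
    have h3 : FI M (v :: a.dedup) (cp M (ms a) v ∩ A) M' (v' :: a'.dedup)
        (cp M' (ms a') v' ∩ A') := by
      refine hUN X r M M' _ _ a1 a1' A A' _ _ hM hM' hA hA' hEs inter_subset_right
        inter_subset_right ?_
      intro c hc e he hce
      have hin : ∀ z ∈ a.zip a', z ∈ (c :: v :: a.dedup).zip (e :: v' :: a'.dedup) := by
        intro z hz
        rw [List.zip_cons_cons, List.zip_cons_cons]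
        exact List.mem_cons_of_mem _ (List.mem_cons_of_mem _ ((hzz z).2 hz))
      have hin' : ∀ z ∈ a'.zip a, z ∈ (e :: v' :: a'.dedup).zip (c :: v :: a.dedup) := by
        intro z hz
        rw [← swap_zip] at hz ⊢
        obtain ⟨w, hw, rfl⟩ := List.mem_map.1 hz
        exact List.mem_map.2 ⟨w, hin w hw, rfl⟩
      constructor
      · rintro ⟨hcD, -⟩
        exact ⟨hfl_conn hCTR homl hce.2 hl hin (by simp) (by simp) hcD, he⟩
      · rintro ⟨heD, -⟩
        exact ⟨hfl_conn hCTR homl hce.symm.2 hl.symm hin' (by simp) (by simp) heD, hc⟩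
    obtain ⟨h, -, hb, hp⟩ := (h1.symm.trans h3).trans h2
    refine ⟨h, hl, hb, fun x hx => (hp x hx).mono ?_⟩
    intro z hz
    rw [List.mem_append] at hz ⊢
    rcases hz with hz | hz
    · left
      rw [List.zip_cons_cons]
      exact List.mem_cons_of_mem _ ((hzz z).2 hz)
    · exact Or.inr hz
  obtain ⟨T1, hT1, -, hT⟩ := hyp.tc (Rk.lim r)
  let P : St C × List ℕ → Fl C → Prop := fun t f =>
    f.1 ∈ X ∧ f.2.2 ∉ f.2.1 ∧ Bad c0 b f.1 f.2.1 f.2.2 ∧
      EB (Rk.lim r) f.1 (f.2.2 :: f.2.1) t.1 t.2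
  let g : St C × List ℕ → Fl C := fun t => if h : ∃ f, P t f then h.choose
    else ((fun _ _ => false, fun _ => c0), [], 0)
  have hg : ∀ t, (∃ f, P t f) → P t (g t) := by
    intro t h
    have e : g t = h.choose := dif_pos h
    rw [e]
    exact h.choose_spec
  refine ⟨g '' {t | t ∈ T1 ∧ ∃ f, P t f}, (hT1.mono fun t ht => ht.1).image g, ?_, ?_⟩
  · rintro _ ⟨t, ⟨-, ht⟩, rfl⟩
    exact ⟨hyp.val _ (hg t ht).1, (hg t ht).2.1⟩
  · intro M hM a v hv
    by_cases hbad : Bad c0 b M a v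
    · left
      obtain ⟨t, htT, ht1, ht2⟩ := hT M hM (v :: a)
      have hP : P t (M, a, v) := ⟨hM, hv, hbad, ht1.symm, ht2⟩
      have hP' := hg t ⟨_, hP⟩
      exact ⟨g t, ⟨t, ⟨htT, _, hP⟩, rfl⟩, claim2 M hM _ hP'.1 a _ v _ hv hP'.2.1 hbad hP'.2.2.1
        (hP.2.2.2.trans hP'.2.2.2.symm)⟩
    · right
      unfold Bad at hbad
      push Not at hbad
      exact hbad

end Pool.Agent.HB
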