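import Pool.Agent.H71.ST.Defs3
import Pool.Agent.H75.TK.Asm
import Pool.Agent.H76.HB.DEN
import Pool.Agent.H76.HB.HEND
import Pool.Agent.H76.HB.HFL
import Pool.Agent.H66.HB.AT
import Pool.Agent.H66.HB.HUBS
import Pool.Agent.H42.HB.DDP
import Pool.Agent.H75.HB.FL2
import Pool.Agent.H75.HB.TVM
import Pool.Agent.H91.HB.FL3
import Pool.Agent.H51.HB.PSX
import Pool.Agent.H76.HB.FL1b
import Pool.Agent.H69.HB.UN

/-! Assembly of the theorem on hub ends (board hub_modules). -/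

set_option autoImplicit false

open Set Pool.Agent.TK Pool.Agent.ST

namespace Pool.Agent.HB

theorem hfl_all {C : Type} [MeasurableSpace C] {c0 : C} : HFL C c0 := by
  have hCOMP : COMP C c0 := pf_COMP
  have hCTR : CTR C := pf_CTR
  have hINF : INF C := pf_INF
  have hREL : REL C := pf_REL hCTR
  have hRPF : RPF C c0 := pf_RPF
  have hSC1 : SC1 C := pf_SC1
  have hSC2 : SC2 C := pf_SC2
  have hSCO : SCO C := pf_SCO hSC1 hSC2
  have hTRA : TRA C c0 := pf_TRA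
  have hCNT : CNT C c0 := pf_CNT hREL
  have hEXN : EXN C c0 := pf_EXN hTRA hINF
  have hMEA : MEA C c0 := pf_MEA hRPF
  have hMEM : MEM C c0 := pf_MEM hCOMP hRPF
  have hRP1 : RP1 C c0 := pf_RP1 hTRA hRPF hCOMP hCTR hINF
  have hMMK : MMK C c0 := pf_MMK hRP1 hINF
  have hFINB : FINB C c0 := pf_FINB hEXN hRPF hMEM hMEA
  have hTVM : TVM C := pf_TVM
  exact pf_HFL (pf_AT (pf_DEN pf_CL)) (pf_UN hSC2 hTVM) (pf_PSX hCNT hSCO) (pf_FL1b hREL hCTR)
    (pf_FL2 hREL hCTR) (pf_FL3 hSC2) (pf_HUBS hTVM) (pf_HEND hREL hTVM hMMK) hFINB hCTR pf_DDP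

lemma wlk_ball {C : Type} {c0 : C} {M : St C} (hM : Valid c0 M) {F : Set ℕ} {k : ℕ} {u : ℕ → ℕ}
    (h : ∀ t, t < k → u t ∉ F ∧ M.1 (u t) (u (t + 1)) = true) :
    ∀ t, t < k → u t ∈ ball M F (u 0) t
  | 0, _ => rfl
  | t + 1, ht => Or.inr ⟨(h (t + 1) ht).1, u t, wlk_ball hM h t (by omega),
      (h t (by omega)).2⟩

lemma hubE_ball {C : Type} {c0 : C} {M : St C} (hM : Valid c0 M) {w : Set ℕ → Set ℕ}
    (hw : IsDir M w) (h : HubE M w) : Pool.Agent.H71.ST.HubE M w := by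
  obtain ⟨β, k, hβ, H⟩ := h
  refine ⟨β, k, hβ, fun F n hF => ?_⟩
  have hF' : (F ∪ β '' {i | i ≤ n}).Finite := hF.union ((finite_le_nat n).image β)
  obtain ⟨v, hv, hwk⟩ := H n _ hF'
  have hvF : v ∉ F ∪ β '' {i | i ≤ n} := fun h =>
    Set.disjoint_left.1 (hw.1 _ hF').disj hv h
  refine ⟨v, hw.2 _ _ hF' subset_union_left hv, fun i hi => ?_⟩
  obtain ⟨u, h0, h1, h2⟩ := hwk i hi
  rcases Nat.eq_zero_or_pos (k i) with hk | hk
  · rw [hk] at h1
    exact absurd (Or.inr ⟨i, hi, by rw [← h1, h0]⟩) hvF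
  · have h3 : ∀ t, t < k i → u t ∉ F ∧ M.1 (u t) (u (t + 1)) = true := fun t ht =>
      ⟨fun h => (h2 t ht).1 (Or.inl h), (h2 t ht).2⟩
    have h4 := wlk_ball hM h3 (k i - 1) (by omega)
    rw [h0] at h4
    refine ⟨u (k i - 1), ?_, ?_⟩
    · have hmono : ∀ m m', m ≤ m' → ball M F v m ⊆ ball M F v m' := by
        intro m m' hm
        induction m', hm using Nat.le_induction with
        | base => exact subset_rfl
        | succ m' _ ih => exact ih.trans subset_union_left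
      exact hmono _ _ (by omega) h4
    · have h5 := (h3 (k i - 1) (by omega)).2
      rw [Nat.sub_add_cancel hk, h1] at h5
      exact h5

theorem hubf_all {C : Type} [MeasurableSpace C] {c0 : C} : Pool.Agent.H71.ST.HUBF C c0 := by
  intro b X hyp
  obtain ⟨T, hT, -, h⟩ := hfl_all (c0 := c0) b X hyp
  refine ⟨T, hT, fun M hM a v hv => ?_⟩
  rcases h M hM a v hv with h1 | ⟨w, hw1, hw2, hw3⟩
  · exact Or.inl h1
  · exact Or.inr ⟨w, hw1, hubE_ball (hyp.val M hM) hw1.1 hw2, hw3⟩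

end Pool.Agent.HB
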