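import Pool.Agent.H76.HB.Stmt

/-! CL: limits of sequences of pointed structures. -/

set_option autoImplicit false

open Set Pool.Agent.TK Pool.Agent.ST

namespace Pool.Agent.HB

variable {C : Type}

section lists
variable {ι : Type} {A B D : St C} {ρ : Rk}

lemma bfc_comp {t : List ι} {f g h : ι → ℕ} {a b c : ℕ}
    (H : bf A B univ univ ρ ((a, b) :: t.map (fun s => (f s, g s))))
    (H' : bf B D univ univ ρ ((b, c) :: t.map (fun s => (g s, h s)))) :
    bf A D univ univ ρ ((a, c) :: t.map (fun s => (f s, h s))) := by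
  have := bf_trans' (M := A) (M' := B) (M'' := D) (U := univ) (U' := univ) (U'' := univ) (r := ρ)
    (t := (a, b, c) :: t.map (fun s => (f s, g s, h s)))
    (by simpa [List.map_map, Function.comp_def] using H)
    (by simpa [List.map_map, Function.comp_def] using H')
  simpa [List.map_map, Function.comp_def] using this

lemma bfc_symm {t : List ι} {f g : ι → ℕ} {a b : ℕ}
    (H : bf A B univ univ ρ ((a, b) :: t.map (fun s => (f s, g s)))) :
    bf B A univ univ ρ ((b, a) :: t.map (fun s => (g s, f s))) := by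
  have := bf_symm H
  simpa [List.map_map, Function.comp_def] using this

lemma bfm_comp {t : List ι} {f g h : ι → ℕ}
    (H : bf A B univ univ ρ (t.map (fun s => (f s, g s))))
    (H' : bf B D univ univ ρ (t.map (fun s => (g s, h s)))) :
    bf A D univ univ ρ (t.map (fun s => (f s, h s))) := by
  have := bf_trans' (M := A) (M' := B) (M'' := D) (U := univ) (U' := univ) (U'' := univ) (r := ρ)
    (t := t.map (fun s => (f s, g s, h s)))
    (by simpa [List.map_map, Function.comp_def] using H)
    (by simpa [List.map_map, Function.comp_def] using H')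
  simpa [List.map_map, Function.comp_def] using this

lemma bfm_symm {t : List ι} {f g : ι → ℕ}
    (H : bf A B univ univ ρ (t.map (fun s => (f s, g s)))) :
    bf B A univ univ ρ (t.map (fun s => (g s, f s))) := by
  have := bf_symm H
  simpa [List.map_map, Function.comp_def] using this

lemma RLe.sucN_le {i j : ℕ} (h : i ≤ j) (r : Rk) : RLe C (Rk.sucN i r) (Rk.sucN j r) := by
  obtain ⟨k, rfl⟩ := Nat.exists_eq_add_of_le h
  rw [Nat.add_comm, ← sucN_add]
  exact RLe.sucN k _

end lists

/-- the limit structure of a coherent sequence of position maps -/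
noncomputable def limSt (N : ℕ → St C) (x : ℕ → ℕ → ℕ) : St C :=
  (fun u v => (N (u + v + 1)).1 (x (u + v + 1) u) (x (u + v + 1) v),
   fun l => (N (l.sum + 1)).2 (l.map (x (l.sum + 1))))

/-- coherent sequences of position maps -/
structure Coh (r : Rk) (N : ℕ → St C) (k : ℕ) (q : ℕ → ℕ) (x : ℕ → ℕ → ℕ) : Prop where
  inj : ∀ j, Set.InjOn (x j) {t | t < k + j}
  step : ∀ j, bf (N j) (N (j + 1)) univ univ (Rk.sucN (q j) r)
    ((List.range (k + j)).map (fun t => (x j t, x (j + 1) t)))
  req : ∀ j, 1 ≤ q j.unpair.1 → ∃ t, t < k + j + 1 ∧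
    bf (N j.unpair.1) (N (j + 1)) univ univ (Rk.sucN (q j.unpair.1 - 1) r)
      ((j.unpair.2, x (j + 1) t) ::
        (List.range (k + j.unpair.1)).map (fun t => (x j.unpair.1 t, x (j + 1) t)))

lemma chain_of {r : Rk} {N : ℕ → St C} {k : ℕ} {q : ℕ → ℕ} {x : ℕ → ℕ → ℕ}
    (hq : ∀ i, q i ≤ q (i + 1)) {n : ℕ}
    (step : ∀ j, j < n → bf (N j) (N (j + 1)) univ univ (Rk.sucN (q j) r)
      ((List.range (k + j)).map (fun t => (x j t, x (j + 1) t)))) (i : ℕ) :
    ∀ j, i ≤ j → j ≤ n → bf (N i) (N j) univ univ (Rk.sucN (q i) r)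
      ((List.range (k + i)).map (fun t => (x i t, x j t))) := by
  have hmono : ∀ a b, a ≤ b → q a ≤ q b := fun a b hab => monotone_nat_of_le_succ hq hab
  intro j hij
  induction j, hij using Nat.le_induction with
  | base =>
    intro _
    apply bf_diag
    intro z hz
    obtain ⟨t, -, rfl⟩ := List.mem_map.1 hz
    rfl
  | succ j hij ih =>
    intro hn
    have h1 := ih (by omega)
    have h2 := RLe.sucN_le (C := C) (hmono i j hij) r _ _ _ _ _ (step j (by omega))
    refine bfm_comp h1 (bf_mono h2 ?_)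
    intro z hz
    obtain ⟨t, ht, rfl⟩ := List.mem_map.1 hz
    refine List.mem_map.2 ⟨t, ?_, rfl⟩
    rw [List.mem_range] at ht ⊢
    omega

lemma Coh.chain {r : Rk} {N : ℕ → St C} {k : ℕ} {q : ℕ → ℕ} {x : ℕ → ℕ → ℕ}
    (hq : ∀ i, q i ≤ q (i + 1)) (H : Coh r N k q x) (i j : ℕ) (hij : i ≤ j) :
    bf (N i) (N j) univ univ (Rk.sucN (q i) r)
      ((List.range (k + i)).map (fun t => (x i t, x j t))) :=
  chain_of (n := j) hq (fun j' _ => H.step j') i j hij le_rfl

lemma Coh.edge {r : Rk} {N : ℕ → St C} {k : ℕ} {q : ℕ → ℕ} {x : ℕ → ℕ → ℕ}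
    (hq : ∀ i, q i ≤ q (i + 1)) (H : Coh r N k q x) (u v j : ℕ) (hu : u < k + j)
    (hv : v < k + j) : (limSt N x).1 u v = (N j).1 (x j u) (x j v) := by
  have key : ∀ i j, i ≤ j → u < k + i → v < k + i →
      (N i).1 (x i u) (x i v) = (N j).1 (x j u) (x j v) := by
    intro i j hij hu hv
    have h := bf_PI (H.chain hq i j hij)
    exact h.2.1 (x i u, x j u) (List.mem_map.2 ⟨u, List.mem_range.2 hu, rfl⟩)
      (x i v, x j v) (List.mem_map.2 ⟨v, List.mem_range.2 hv, rfl⟩)
  show (N (u + v + 1)).1 (x (u + v + 1) u) (x (u + v + 1) v) = _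
  rw [key (u + v + 1) (max (u + v + 1) j) (le_max_left _ _) (by omega) (by omega),
    key j (max (u + v + 1) j) (le_max_right _ _) hu hv]

lemma Coh.val {r : Rk} {N : ℕ → St C} {k : ℕ} {q : ℕ → ℕ} {x : ℕ → ℕ → ℕ}
    (hq : ∀ i, q i ≤ q (i + 1)) (H : Coh r N k q x) (l : List ℕ) (j : ℕ)
    (hl : ∀ u ∈ l, u < k + j) : (limSt N x).2 l = (N j).2 (l.map (x j)) := by
  have key : ∀ i j, i ≤ j → (∀ u ∈ l, u < k + i) →
      (N i).2 (l.map (x i)) = (N j).2 (l.map (x j)) := by
    intro i j hij hl
    have h := (bf_PI (H.chain hq i j hij)).2.2 (l.map (fun t => (x i t, x j t)))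
      (by
        intro z hz
        obtain ⟨t, ht, rfl⟩ := List.mem_map.1 hz
        exact List.mem_map.2 ⟨t, List.mem_range.2 (hl t ht), rfl⟩)
    simpa [List.map_map, Function.comp_def] using h
  show (N (l.sum + 1)).2 (l.map (x (l.sum + 1))) = _
  have h1 : ∀ u ∈ l, u < k + (l.sum + 1) := by
    intro u hu
    have := List.single_le_sum (l := l) (fun _ _ => Nat.zero_le _) u hu
    omega
  rw [key (l.sum + 1) (max (l.sum + 1) j) (le_max_left _ _) h1,
    key j (max (l.sum + 1) j) (le_max_right _ _) hl]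

/-- the main property of the limit structure -/
lemma Coh.lim {r : Rk} {N : ℕ → St C} {k : ℕ} {q : ℕ → ℕ} {x : ℕ → ℕ → ℕ}
    (hq : ∀ i, q i ≤ q (i + 1)) (hq' : ∀ i, i ≤ q i) (H : Coh r N k q x) (ρ : Rk) :
    ∀ m0, RLe C ρ (Rk.sucN m0 r) → ∀ (M' : St C) (p : List (ℕ × ℕ)),
      (∃ j0, ∀ j, j0 ≤ j → bf (N j) M' univ univ ρ (p.map (fun z => (x j z.1, z.2)))) →
      bf (limSt N x) M' univ univ ρ p := by
  induction ρ with
  | zero =>
    rintro m0 - M' p ⟨j0, hj0⟩
    obtain ⟨j, hj, hp⟩ : ∃ j, j0 ≤ j ∧ ∀ z ∈ p, z.1 < k + j := by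
      refine ⟨max j0 ((p.map Prod.fst).sum + 1), le_max_left _ _, fun z hz => ?_⟩
      have := List.single_le_sum (l := p.map Prod.fst) (fun _ _ => Nat.zero_le _) z.1
        (List.mem_map_of_mem hz)
      omega
    have h := hj0 j hj
    change PI (N j) M' _ at h
    show PI (limSt N x) M' p
    refine ⟨?_, ?_, ?_⟩
    · intro z hz w hw
      have h1 := h.1 (x j z.1, z.2) (List.mem_map.2 ⟨z, hz, rfl⟩) (x j w.1, w.2)
        (List.mem_map.2 ⟨w, hw, rfl⟩)
      rw [← h1]
      exact ⟨fun e => by rw [e], fun e => H.inj j (hp z hz) (hp w hw) e⟩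
    · intro z hz w hw
      rw [H.edge hq z.1 w.1 j (hp z hz) (hp w hw)]
      exact h.2.1 (x j z.1, z.2) (List.mem_map.2 ⟨z, hz, rfl⟩) (x j w.1, w.2)
        (List.mem_map.2 ⟨w, hw, rfl⟩)
    · intro l hl
      rw [H.val hq (l.map Prod.fst) j (by
        intro u hu
        obtain ⟨z, hz, rfl⟩ := List.mem_map.1 hu
        exact hp z (hl z hz))]
      have := h.2.2 (l.map (fun z => (x j z.1, z.2))) (by
        intro z hz
        obtain ⟨w, hw, rfl⟩ := List.mem_map.1 hz
        exact List.mem_map.2 ⟨w, hl w hw, rfl⟩)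
      simpa [List.map_map, Function.comp_def] using this
  | sup f ih =>
    rintro m0 hm0 M' p ⟨j0, hj0⟩ n
    have hfn : RLe C (f n) (Rk.sucN m0 r) := (RLe.sup f n).trans hm0
    -- a large index
    have large : ∀ a : ℕ, ∃ j, j0 ≤ j ∧ a < k + j ∧ m0 + 1 ≤ q j ∧ ∀ z ∈ p, z.1 < k + j := by
      intro a
      refine ⟨max (max j0 (a + 1)) (max (m0 + 1) ((p.map Prod.fst).sum + 1)), by omega, by omega,
        ?_, fun z hz => ?_⟩
      · exact le_trans (by omega) (hq' _)
      · have := List.single_le_sum (l := p.map Prod.fst) (fun _ _ => Nat.zero_le _) z.1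
          (List.mem_map_of_mem hz)
        omega
    -- chains in the form which is used
    have chn : ∀ i j, i ≤ j → m0 ≤ q i → (∀ z ∈ p, z.1 < k + i) → ∀ a, a < k + i →
        bf (N i) (N j) univ univ (f n) ((x i a, x j a) :: p.map (fun z => (x i z.1, x j z.1))) := by
      intro i j hij hqi hp a ha
      have h := (hfn.trans (RLe.sucN_le hqi r)) _ _ _ _ _ (H.chain hq i j hij)
      refine bf_mono h ?_
      intro z hz
      rcases List.mem_cons.1 hz with rfl | hz
      · exact List.mem_map.2 ⟨a, List.mem_range.2 ha, rfl⟩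
      · obtain ⟨w, hw, rfl⟩ := List.mem_map.1 hz
        exact List.mem_map.2 ⟨w.1, List.mem_range.2 (hp w hw), rfl⟩
    refine ⟨?_, ?_, ?_⟩
    · exact ih n m0 hfn M' p ⟨j0, fun j hj => (hj0 j hj n).1⟩
    · intro a _
      obtain ⟨j1, h1, h2, h3, h4⟩ := large a
      obtain ⟨b, -, hb⟩ := (hj0 j1 h1 n).2.1 (x j1 a) (mem_univ _)
      refine ⟨b, mem_univ _, ih n m0 hfn M' ((a, b) :: p) ⟨j1, fun j hj => ?_⟩⟩
      have h5 := bfc_symm (chn j1 j hj (by omega) h4 a h2)
      exact bfc_comp h5 hb
    · intro b _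
      obtain ⟨j1, h1, -, h3, h4⟩ := large 0
      obtain ⟨c, -, hc⟩ := (hj0 j1 h1 n).2.2 b (mem_univ _)
      obtain ⟨t, ht, hreq⟩ := H.req (Nat.pair j1 c) (by simp only [Nat.unpair_pair]; omega)
      simp only [Nat.unpair_pair] at hreq
      set i := Nat.pair j1 c with hi
      have hji : j1 ≤ i := Nat.left_le_pair _ _
      refine ⟨t, mem_univ _, ih n m0 hfn M' ((t, b) :: p) ⟨i + 1, fun j hj => ?_⟩⟩
      have e1 : bf (N j1) (N (i + 1)) univ univ (f n)
          ((c, x (i + 1) t) :: p.map (fun z => (x j1 z.1, x (i + 1) z.1))) := by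
        have h := (hfn.trans (RLe.sucN_le (show m0 ≤ q j1 - 1 by omega) r)) _ _ _ _ _ hreq
        refine bf_mono h ?_
        intro z hz
        rcases List.mem_cons.1 hz with rfl | hz
        · exact List.mem_cons_self
        · obtain ⟨w, hw, rfl⟩ := List.mem_map.1 hz
          exact List.mem_cons_of_mem _ (List.mem_map.2 ⟨w.1, List.mem_range.2 (h4 w hw), rfl⟩)
      have e2 := chn (i + 1) j hj (by
          have : q j1 ≤ q (i + 1) := monotone_nat_of_le_succ hq (by omega)
          omega) (fun z hz => by have := h4 z hz; omega) t (by omega)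
      exact bfc_comp (bfc_symm (bfc_comp e1 e2)) hc

/-- finite approximations of coherent sequences -/
structure Apx (r : Rk) (N : ℕ → St C) (z : ℕ → List ℕ) (k : ℕ) (q : ℕ → ℕ) (n : ℕ)
    (x : ℕ → ℕ → ℕ) : Prop where
  inj : ∀ j, j ≤ n → Set.InjOn (x j) {t | t < k + j}
  mrk : ∀ j, j ≤ n → ∀ t, t < k → x j t = (z j).getD t 0
  step : ∀ j, j < n → bf (N j) (N (j + 1)) univ univ (Rk.sucN (q j) r)
    ((List.range (k + j)).map (fun t => (x j t, x (j + 1) t)))
  req : ∀ j, j < n → 1 ≤ q j.unpair.1 → ∃ t, t < k + j + 1 ∧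
    bf (N j.unpair.1) (N (j + 1)) univ univ (Rk.sucN (q j.unpair.1 - 1) r)
      ((j.unpair.2, x (j + 1) t) ::
        (List.range (k + j.unpair.1)).map (fun t => (x j.unpair.1 t, x (j + 1) t)))

lemma inj_of_bf {A B : St C} {ρ : Rk} {f g : ℕ → ℕ} {n : ℕ}
    (h : bf A B univ univ ρ ((List.range n).map (fun t => (f t, g t))))
    (hf : Set.InjOn f {t | t < n}) : Set.InjOn g {t | t < n} := by
  intro u hu v hv e
  apply hf hu hv
  exact ((bf_PI h).1 (f u, g u) (List.mem_map.2 ⟨u, List.mem_range.2 hu, rfl⟩) (f v, g v)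
    (List.mem_map.2 ⟨v, List.mem_range.2 hv, rfl⟩)).2 e

/-- transfer of the last position map -/
lemma transfer {A B : St C} {r : Rk} {x y : List ℕ} {k n m : ℕ} (hx : x.length = k)
    (hm : n ≤ m) (H : EB (Rk.sucN m r) A x B y) (e : ℕ → ℕ)
    (he : ∀ t, t < k → e t = x.getD t 0) :
    ∃ e' : ℕ → ℕ, (∀ t, t < k → e' t = y.getD t 0) ∧
      bf A B univ univ (Rk.sucN (m - n) r) ((List.range (k + n)).map (fun t => (e t, e' t))) := by
  have hy : y.length = k := by rw [← hx]; exact H.1.symm
  have h1 : bf A B univ univ (Rk.sucN n (Rk.sucN (m - n) r)) (x.zip y) := by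
    rw [sucN_add, Nat.add_sub_cancel' hm]
    exact H.2
  obtain ⟨w, hw, -, h2⟩ := ext_many ((List.range n).map (fun t => e (k + t))) (by simp) h1
    (fun _ _ => mem_univ _)
  refine ⟨fun t => if t < k then y.getD t 0 else w.getD (t - k) 0, fun t ht => if_pos ht,
    bf_mono h2 ?_⟩
  intro z hz
  obtain ⟨t, ht, rfl⟩ := List.mem_map.1 hz
  rw [List.mem_range] at ht
  rw [List.mem_append]
  by_cases htk : t < k
  · right
    simp only [htk, if_true]
    rw [he t htk]
    rw [List.getD_eq_getElem _ _ (by omega), List.getD_eq_getElem _ _ (by omega)]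
    rw [List.mem_iff_getElem]
    exact ⟨t, by rw [List.length_zip]; omega, by simp⟩
  · left
    simp only [htk, if_false]
    rw [List.getD_eq_getElem _ _ (by omega)]
    rw [List.mem_iff_getElem]
    refine ⟨t - k, by rw [List.length_zip]; simp; omega, ?_⟩
    simp only [List.getElem_zip, List.getElem_map, List.getElem_range]
    rw [show k + (t - k) = t by omega]

lemma Apx.next {r : Rk} {N : ℕ → St C} {z : ℕ → List ℕ} {k : ℕ} {m : ℕ → ℕ} {n : ℕ}
    {x : ℕ → ℕ → ℕ} (hm0 : ∀ i, 2 * i ≤ m i) (hm : ∀ i, m i + 2 ≤ m (i + 1))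
    (hz : (z n).length = k)
    (hE : EB (Rk.sucN (m n) r) (N n) (z n) (N (n + 1)) (z (n + 1)))
    (H : Apx r N z k (fun i => m i - i) n x) :
    ∃ e, Apx r N z k (fun i => m i - i) (n + 1) (Function.update x (n + 1) e) := by
  classical
  have hq : ∀ i, m i - i ≤ m (i + 1) - (i + 1) := by
    intro i
    have := hm i
    omega
  obtain ⟨e1, he1, hb1⟩ := transfer (n := n) hz (by have := hm0 n; omega) hE (x n)
    (H.mrk n le_rfl)
  have hinj1 : Set.InjOn e1 {t | t < k + n} := inj_of_bf hb1 (H.inj n le_rfl)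
  -- the requirement
  set i0 := n.unpair.1 with hi0
  set c := n.unpair.2 with hc
  have hi0n : i0 ≤ n := Nat.unpair_left_le n
  have hch : bf (N i0) (N (n + 1)) univ univ (Rk.sucN (m i0 - i0) r)
      ((List.range (k + i0)).map (fun t => (x i0 t, e1 t))) := by
    have h1 := chain_of (q := fun i => m i - i) hq (n := n) (fun j hj => H.step j hj) i0 n hi0n
      le_rfl
    have hmon : m i0 - i0 ≤ m n - n :=
      monotone_nat_of_le_succ (f := fun i => m i - i) hq hi0n
    refine bfm_comp h1 (bf_mono ((RLe.sucN_le hmon r) _ _ _ _ _ hb1) ?_)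
    intro z hz
    obtain ⟨t, ht, rfl⟩ := List.mem_map.1 hz
    refine List.mem_map.2 ⟨t, ?_, rfl⟩
    rw [List.mem_range] at ht ⊢
    omega
  -- the new entry
  obtain ⟨c', hc'⟩ : ∃ c', 1 ≤ m i0 - i0 → bf (N i0) (N (n + 1)) univ univ
      (Rk.sucN (m i0 - i0 - 1) r)
      ((c, c') :: (List.range (k + i0)).map (fun t => (x i0 t, e1 t))) := by
    by_cases h : 1 ≤ m i0 - i0
    · obtain ⟨q', hq'⟩ : ∃ q', m i0 - i0 = q' + 1 := ⟨m i0 - i0 - 1, by omega⟩
      rw [hq'] at hch
      obtain ⟨c', -, h'⟩ := (hch 0).2.1 c (mem_univ _)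
      refine ⟨c', fun _ => ?_⟩
      rw [hq', Nat.add_sub_cancel]
      exact h'
    · exact ⟨0, fun h' => absurd h' h⟩
  obtain ⟨d, hd1, hd2⟩ : ∃ d, (∀ t, t < k + n → e1 t ≠ d) ∧
      ((∃ t, t < k + n ∧ e1 t = c') ∨ d = c') := by
    by_cases h : ∃ t, t < k + n ∧ e1 t = c'
    · obtain ⟨d, hd⟩ := Infinite.exists_notMem_finset ((Finset.range (k + n)).image e1)
      refine ⟨d, fun t ht e => hd ?_, Or.inl h⟩
      exact Finset.mem_image.2 ⟨t, Finset.mem_range.2 ht, e⟩
    · push Not at h
      exact ⟨c', h, Or.inr rfl⟩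
  set e2 : ℕ → ℕ := Function.update e1 (k + n) d with he2
  have e2lt : ∀ t, t < k + n → e2 t = e1 t := fun t ht => by
    rw [he2, Function.update_of_ne (by omega)]
  have e2eq : e2 (k + n) = d := by rw [he2, Function.update_self]
  refine ⟨e2, ?_, ?_, ?_, ?_⟩
  · intro j hj
    rcases Nat.lt_or_ge n j with h | h
    · have : j = n + 1 := by omega
      subst this
      rw [Function.update_self]
      intro u hu v hv e
      simp only [mem_ofPred_eq] at hu hv
      by_cases hu' : u < k + n
      · by_cases hv' : v < k + n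
        · rw [e2lt u hu', e2lt v hv'] at e
          exact hinj1 hu' hv' e
        · have : v = k + n := by omega
          subst this
          rw [e2eq, e2lt u hu'] at e
          exact absurd e (hd1 u hu')
      · have : u = k + n := by omega
        subst this
        by_cases hv' : v < k + n
        · rw [e2eq, e2lt v hv'] at e
          exact absurd e.symm (hd1 v hv')
        · omega
    · rw [Function.update_of_ne (by omega)]
      exact H.inj j h
  · intro j hj t ht
    rcases Nat.lt_or_ge n j with h | h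
    · have : j = n + 1 := by omega
      subst this
      rw [Function.update_self, e2lt t (by omega), he1 t ht]
    · rw [Function.update_of_ne (by omega)]
      exact H.mrk j h t ht
  · intro j hj
    rcases Nat.lt_or_ge j n with h | h
    · rw [Function.update_of_ne (show j ≠ n + 1 by omega),
        Function.update_of_ne (show j + 1 ≠ n + 1 by omega)]
      exact H.step j h
    · have : j = n := by omega
      subst this
      rw [Function.update_of_ne (show j ≠ j + 1 by omega), Function.update_self]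
      refine bf_mono hb1 ?_
      intro z hz
      obtain ⟨t, ht, rfl⟩ := List.mem_map.1 hz
      refine List.mem_map.2 ⟨t, ht, ?_⟩
      rw [e2lt t (List.mem_range.1 ht)]
  · intro j hj hqj
    rcases Nat.lt_or_ge j n with h | h
    · obtain ⟨t, ht, h1⟩ := H.req j h hqj
      have h2 : j.unpair.1 ≤ j := Nat.unpair_left_le j
      rw [Function.update_of_ne (show j.unpair.1 ≠ n + 1 by omega),
        Function.update_of_ne (show j + 1 ≠ n + 1 by omega)]
      exact ⟨t, ht, h1⟩
    · have : j = n := by omega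
      subst this
      rw [Function.update_self, Function.update_of_ne (show j.unpair.1 ≠ j + 1 by omega)]
      rcases hd2 with ⟨t, ht, h1⟩ | h1
      · refine ⟨t, by omega, ?_⟩
        rw [e2lt t ht, h1]
        refine bf_mono (hc' hqj) ?_
        intro z hz
        rcases List.mem_cons.1 hz with rfl | hz
        · exact List.mem_cons_self
        · obtain ⟨w, hw, rfl⟩ := List.mem_map.1 hz
          refine List.mem_cons_of_mem _ (List.mem_map.2 ⟨w, hw, ?_⟩)
          rw [e2lt w (by have := List.mem_range.1 hw; omega)]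
      · refine ⟨k + j, by omega, ?_⟩
        rw [e2eq, h1]
        refine bf_mono (hc' hqj) ?_
        intro z hz
        rcases List.mem_cons.1 hz with rfl | hz
        · exact List.mem_cons_self
        · obtain ⟨w, hw, rfl⟩ := List.mem_map.1 hz
          refine List.mem_cons_of_mem _ (List.mem_map.2 ⟨w, hw, ?_⟩)
          rw [e2lt w (by have := List.mem_range.1 hw; omega)]

theorem pf_CL {C : Type} : CL C := by
  classical
  intro r N z m hnd hm hE
  have hm0 : ∀ i, 2 * i ≤ m i := by
    intro i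
    induction i with
    | zero => omega
    | succ i ih => have := hm i; omega
  set k := (z 0).length with hk
  have hlen : ∀ i, (z i).length = k := by
    intro i
    induction i with
    | zero => rfl
    | succ i ih => rw [← (hE i).1, ih]
  have hq : ∀ i, m i - i ≤ m (i + 1) - (i + 1) := by
    intro i
    have := hm i
    omega
  -- the start
  have h0 : Apx r N z k (fun i => m i - i) 0 (fun _ t => (z 0).getD t 0) := by
    refine ⟨?_, ?_, ?_, ?_⟩
    · intro j hj
      have : j = 0 := by omega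
      subst this
      intro u hu v hv e
      simp only [mem_ofPred_eq, Nat.add_zero] at hu hv
      change (z 0).getD u 0 = (z 0).getD v 0 at e
      rw [List.getD_eq_getElem _ _ hu, List.getD_eq_getElem _ _ hv] at e
      exact (List.Nodup.getElem_inj_iff hnd).1 e
    · intro j hj t ht
      have : j = 0 := by omega
      subst this
      rfl
    · intro j hj
      omega
    · intro j hj
      omega
  -- the sequence
  have hnext : ∀ n x, Apx r N z k (fun i => m i - i) n x →
      ∃ x', Apx r N z k (fun i => m i - i) (n + 1) x' ∧ ∀ j, j ≤ n → x' j = x j := by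
    intro n x H
    obtain ⟨e, he⟩ := H.next hm0 hm (hlen n) (hE n)
    refine ⟨_, he, fun j hj => ?_⟩
    rw [Function.update_of_ne (by omega)]
  choose! nx hnx1 hnx2 using hnext
  let S : ℕ → ℕ → ℕ → ℕ := fun n => Nat.rec (fun _ t => (z 0).getD t 0) (fun n x => nx n x) n
  have hS : ∀ n, Apx r N z k (fun i => m i - i) n (S n) := by
    intro n
    induction n with
    | zero => exact h0
    | succ n ih => exact hnx1 n _ ih
  have hS' : ∀ n j, j ≤ n → S n j = S j j := by
    intro n j hj
    induction n, hj using Nat.le_induction with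
    | base => rfl
    | succ n hj ih =>
      rw [← ih]
      exact hnx2 n _ (hS n) j hj
  set x : ℕ → ℕ → ℕ := fun j => S j j with hx
  have hcoh : Coh r N k (fun i => m i - i) x := by
    refine ⟨fun j => (hS j).inj j le_rfl, fun j => ?_, fun j hj => ?_⟩
    · have := (hS (j + 1)).step j (by omega)
      rw [hS' (j + 1) j (by omega)] at this
      exact this
    · have := (hS (j + 1)).req j (by omega) hj
      rw [hS' (j + 1) j.unpair.1 (by have := Nat.unpair_left_le j; omega)] at this
      exact this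
  have hmk : ∀ j t, t < k → x j t = (z j).getD t 0 := fun j t ht => (hS j).mrk j le_rfl t ht
  refine ⟨limSt N x, List.range k, fun i => ⟨by rw [List.length_range, hlen i], ?_⟩⟩
  refine hcoh.lim hq (fun i => by have := hm0 i; omega) _ (m i) (RLe.refl _) (N i) _ ⟨i, ?_⟩
  intro j hij
  -- the chain of the given equivalences
  have hchain : EB (Rk.sucN (m i) r) (N i) (z i) (N j) (z j) := by
    induction j, hij using Nat.le_induction with
    | base => exact FB.refl _ _ _ _
    | succ j hij ih =>
      refine FB.trans ih ((hE j).mono (RLe.sucN_le ?_ r))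
      have : ∀ a b, a ≤ b → m a ≤ m b := fun a b hab =>
        monotone_nat_of_le_succ (fun i => by have := hm i; omega) hab
      exact this i j hij
  refine bf_mono hchain.symm.2 ?_
  intro w hw
  obtain ⟨⟨t, c⟩, htc, rfl⟩ := List.mem_map.1 hw
  obtain ⟨u, hu, e⟩ := List.mem_iff_getElem.1 htc
  rw [List.length_zip, List.length_range, hlen i, min_self] at hu
  simp only [List.getElem_zip, List.getElem_range, Prod.mk.injEq] at e
  obtain ⟨rfl, rfl⟩ := e
  rw [List.mem_iff_getElem]
  refine ⟨u, by rw [List.length_zip, hlen, hlen]; omega, ?_⟩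
  simp only [List.getElem_zip]
  rw [hmk j u hu, List.getD_eq_getElem _ _ (by rw [hlen]; exact hu)]

end Pool.Agent.HB
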