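import Pool.Agent.H75.ST.StmtA
import Pool.Agent.H71.ST.Defs

/-!
Statements for the theorem on hub ends of counterexamples (atomic submodels of thin classes).
Every module proves one of these propositions from others, taken as hypotheses.
-/

set_option autoImplicit false

open Set Pool.Agent.TK Pool.Agent.ST

namespace Pool.Agent.HB

variable {C : Type}

/-- equivalence of rank `r` of pointed structures -/
abbrev EB (r : Rk) (M : St C) (x : List ℕ) (N : St C) (y : List ℕ) : Prop :=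
  FB r M x univ N y univ

/-- the tuple `x` of `M` is isolated over the marks `s` -/
def Isl (X : Set (St C)) (r : Rk) (M : St C) (s x : List ℕ) : Prop :=
  ∃ m, ∀ N ∈ X, ∀ s' y : List ℕ, EB (Rk.lim r) M s N s' →
    EB (Rk.sucN m r) M (x ++ s) N (y ++ s') → EB (Rk.lim r) M (x ++ s) N (y ++ s')

/-- atomic submodels: `A` is the union of `s` and the increasing isolated tuples `a j` -/
structure ATS (X : Set (St C)) (r : Rk) (M : St C) (s : List ℕ) (a : ℕ → List ℕ)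
    (A : Set ℕ) : Prop where
  mem : ∀ z, z ∈ A ↔ ∃ j, z ∈ a j ++ s
  mono : ∀ j, ∀ z ∈ a j, z ∈ a (j + 1)
  isl : ∀ j, Isl X r M s (a j)
  tv : ∀ x : List ℕ, (∀ z ∈ x, z ∈ A) → ∀ y n, ∃ y' ∈ A,
    EB (Rk.sucN n r) M (y :: x) M (y' :: x)

/-- `d` is above the ranks of all pointed small flaps of members of `X` -/
def PSR (c0 : C) (b d : Rk) (X : Set (St C)) : Prop :=
  ∀ M ∈ X, ∀ (a : List ℕ) (v : ℕ), v ∉ a → small c0 b M a (cp M (ms a) v) →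
    ∀ x : List ℕ, (∀ z ∈ x, z ∈ cp M (ms a) v) →
    ∀ (M' : St C) (y : List ℕ) (D' : Set ℕ),
      FB d M (x ++ a) (cp M (ms a) v) M' y D' → FI M (x ++ a) (cp M (ms a) v) M' y D'

/-- a walk of length `k` from `v` to `c` which meets `F` at most in its last vertex -/
def Wlk (M : St C) (F : Set ℕ) (v c k : ℕ) : Prop :=
  ∃ u : ℕ → ℕ, u 0 = v ∧ u k = c ∧ ∀ t, t < k → u t ∉ F ∧ M.1 (u t) (u (t + 1)) = true

/-- a hub system -/
def HubS (M : St C) (β k : ℕ → ℕ) : Prop :=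
  Function.Injective β ∧ ∀ n, ∀ F : Set ℕ, F.Finite → ∃ v, v ∉ F ∧
    ∀ i, i ≤ n → Wlk M F v (β i) (k i)

/-- hub directions -/
def HubE (M : St C) (w : Set ℕ → Set ℕ) : Prop :=
  ∃ β k : ℕ → ℕ, Function.Injective β ∧ ∀ n, ∀ F : Set ℕ, F.Finite → ∃ v ∈ w F,
    ∀ i, i ≤ n → Wlk M F v (β i) (k i)

/-! ### general facts on lists -/

/-- DDP: removing repetitions. -/
def DDP (C : Type) : Prop :=
  ∀ (M N : St C) (x y : List ℕ), x.length = y.length → PI M N (x.zip y) →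
    x.dedup.length = y.dedup.length ∧ ∀ z, z ∈ x.dedup.zip y.dedup ↔ z ∈ x.zip y

/-! ### the modules -/

/-- CL: limits of sequences of pointed structures. -/
def CL (C : Type) : Prop :=
  ∀ (r : Rk) (N : ℕ → St C) (z : ℕ → List ℕ) (m : ℕ → ℕ), (z 0).Nodup →
    (∀ i, m i + 2 ≤ m (i + 1)) →
    (∀ i, EB (Rk.sucN (m i) r) (N i) (z i) (N (i + 1)) (z (i + 1))) →
    ∃ (N' : St C) (z' : List ℕ), ∀ i, EB (Rk.sucN (m i) r) N' z' (N i) (z i)

/-- DEN: isolated tuples are dense. -/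
def DEN (C : Type) : Prop :=
  ∀ (X : Set (St C)) (b r : Rk), Cl b X → TC X → RLe C b r → ∀ M ∈ X, ∀ s x : List ℕ,
    (x ++ s).Nodup → ∀ n, ∃ N ∈ X, ∃ s' y : List ℕ, EB (Rk.lim r) M s N s' ∧
      EB (Rk.sucN n r) M (x ++ s) N (y ++ s') ∧ Isl X r N s' y

/-- AT: existence of atomic submodels. -/
def AT (C : Type) : Prop :=
  ∀ (X : Set (St C)) (b r : Rk), Cl b X → TC X → RLe C b r → ∀ M ∈ X, ∀ s : List ℕ,
    s.Nodup → ∃ a A, ATS X r M s a A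

/-- TVM: copying tuples into the atomic submodel. -/
def TVM (C : Type) : Prop :=
  ∀ (X : Set (St C)) (r : Rk) (M : St C) (s : List ℕ) (a : ℕ → List ℕ) (A : Set ℕ),
    ATS X r M s a A → ∀ x : List ℕ, (∀ z ∈ x, z ∈ A) → ∀ (t : List ℕ) (n : ℕ),
    ∃ t' : List ℕ, t'.length = t.length ∧ (∀ z ∈ t', z ∈ A) ∧
      EB (Rk.sucN n r) M (t ++ x) M (t' ++ x)

/-- UN: uniqueness of atomic submodels (or of recognisable parts of them). -/
def UN (C : Type) : Prop :=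
  ∀ (X : Set (St C)) (r : Rk) (M M' : St C) (s s' : List ℕ) (a a' : ℕ → List ℕ)
    (A A' U U' : Set ℕ), M ∈ X → M' ∈ X → ATS X r M s a A → ATS X r M' s' a' A' →
    EB (Rk.lim r) M s M' s' → U ⊆ A → U' ⊆ A' →
    (∀ c ∈ A, ∀ d ∈ A', EB (Rk.lim r) M (c :: s) M' (d :: s') → (c ∈ U ↔ d ∈ U')) →
    FI M s U M' s' U'

/-- PSX: the ranks of the pointed small flaps are bounded. -/
def PSX (C : Type) (c0 : C) : Prop :=
  ∀ (X : Set (St C)), (∀ M ∈ X, Valid c0 M) → TC X → ∀ b : Rk, ∃ d : Rk, RLe C b d ∧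
    PSR c0 b d X

/-- FL1: flaps which avoid the atomic submodel are small. -/
def FL1 (C : Type) (c0 : C) : Prop :=
  ∀ (X : Set (St C)) (b r : Rk) (M : St C) (s : List ℕ) (a : ℕ → List ℕ) (A : Set ℕ),
    Valid c0 M → RLe C (W b) r → ATS X r M s a A →
    (∀ S : List ℕ, {D : Set ℕ | IsCp M (ms S) D ∧ ¬ small c0 b M S D}.Finite) →
    ∀ S : List ℕ, ms S ⊆ A → ∀ y, y ∉ S → Disjoint (cp M (ms S) y) A →
      small c0 b M S (cp M (ms S) y)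

/-- FL2: a vertex outside the atomic submodel in a small flap is conjugate to one inside. -/
def FL2 (C : Type) (c0 : C) : Prop :=
  ∀ (X : Set (St C)) (b d r : Rk) (M : St C) (s : List ℕ) (a : ℕ → List ℕ) (A : Set ℕ),
    (∀ N ∈ X, Valid c0 N) → M ∈ X → PSR c0 b d X → RLe C (W d) r → ATS X r M s a A →
    ∀ y, y ∉ A → ∀ S : List ℕ, ms S ⊆ A → small c0 b M S (cp M (ms S) y) →
    ∀ x : List ℕ, (∀ z ∈ x, z ∈ A) → ∃ y' ∈ A, ∃ g : Equiv.Perm ℕ, IsoH g M M ∧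
      (∀ z ∈ x, g z = z) ∧ g y' = y

/-- FL3: zig-zag with automorphisms. -/
def FL3 (C : Type) : Prop :=
  ∀ (M : St C) (s : List ℕ) (A D : Set ℕ), (∀ z ∈ s, z ∈ A) →
    (∀ g : Equiv.Perm ℕ, IsoH g M M → (∀ z ∈ s, g z = z) → ∀ z, z ∈ D ↔ g z ∈ D) →
    (∀ y ∈ D, y ∉ A → ∀ x : List ℕ, (∀ z ∈ x, z ∈ A) →
      ∃ y' ∈ A, ∃ g : Equiv.Perm ℕ, IsoH g M M ∧ (∀ z ∈ x, g z = z) ∧ g y' = y) →
    FI M s (D ∩ A) M s D

/-- HUBS: the hub system. -/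
def HUBS (C : Type) (c0 : C) : Prop :=
  ∀ (X : Set (St C)) (r : Rk) (M : St C) (s : List ℕ) (a : ℕ → List ℕ) (A : Set ℕ),
    Valid c0 M → ATS X r M s a A → ∀ y, y ∉ A → (Nb M (cp M A y)).Infinite →
    ∃ β k : ℕ → ℕ, HubS M β k ∧ ∀ i, β i ∈ Nb M (cp M A y)

/-- HEND: the end of the hub system. -/
def HEND (C : Type) (c0 : C) : Prop :=
  ∀ (X : Set (St C)) (b r : Rk) (M : St C) (s : List ℕ) (a : ℕ → List ℕ) (A : Set ℕ),
    Valid c0 M → RLe C om b → RLe C (W b) r → ATS X r M s a A → ∀ y, y ∉ A →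
    (∀ S : List ℕ, ms S ⊆ A → ¬ small c0 b M S (cp M (ms S) y)) →
    ∀ β k : ℕ → ℕ, HubS M β k → (∀ i, β i ∈ Nb M (cp M A y)) →
    ∃ w, Wild c0 b M w ∧ HubE M w ∧ ∀ S : List ℕ, ms S ⊆ A → w (ms S) = cp M (ms S) y

/-- HFL: all but countably many flaps are sides of wild hub directions. -/
def HFL (C : Type) (c0 : C) [MeasurableSpace C] : Prop :=
  ∀ (b : Rk) (X : Set (St C)), Hyp c0 b X → ∃ T : Set (Fl C), T.Countable ∧
    (∀ t ∈ T, Valid c0 t.1 ∧ t.2.2 ∉ t.2.1) ∧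
    ∀ M ∈ X, ∀ (a : List ℕ) (v : ℕ), v ∉ a →
      (∃ t ∈ T, FI M a (cp M (ms a) v) t.1 t.2.1 t.set) ∨
      ∃ w, Wild c0 b M w ∧ HubE M w ∧ w (ms a) = cp M (ms a) v

/-- HST: the structure theorem with hub ends. -/
def HST (C : Type) (c0 : C) [MeasurableSpace C] : Prop :=
  ∀ (b : Rk) (X : Set (St C)), Hyp c0 b X → ∃ O : Set (Fl C), O.Countable ∧
    ∃ T : Set (St C), T.Countable ∧ ∀ M ∈ X, (∃ N ∈ T, Iso M N) ∨
      ∃ Wd, Pool.Agent.H71.ST.EndsW O M Wd ∧ ∀ w ∈ Wd, HubE M w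

/-- FINALH: the structure theorem with hub ends, final form. -/
def FINALH (C : Type) (c0 : C) [MeasurableSpace C] : Prop :=
  ∀ X : Set (St C), MeasurableSet X → (∀ M ∈ X, Valid c0 M) →
    (∀ M ∈ X, ∀ N, Iso M N → N ∈ X) →
    Perf X ∨ (∃ T : Set (St C), T.Countable ∧ ∀ M ∈ X, ∃ N ∈ T, Iso M N) ∨
    ∃ O : Set (Fl C), O.Countable ∧
      (∃ T : Set (St C), T.Countable ∧ ∀ M ∈ X,
        (¬ ∃ Wd, Pool.Agent.H71.ST.EndsW O M Wd ∧ ∀ w ∈ Wd, HubE M w) →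
          ∃ N ∈ T, Iso M N) ∧
      ¬ ∃ T : Set (St C), T.Countable ∧ ∀ M ∈ X,
        (∃ Wd, Pool.Agent.H71.ST.EndsW O M Wd ∧ (∀ w ∈ Wd, HubE M w) ∧
          ∃ w ∈ Wd, Pool.Agent.H71.ST.DivE M w) → ∃ N ∈ T, Iso M N

end Pool.Agent.HB
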